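import Pool.Agent.H85.BC.Basic

/-!
# Row ARC: two separated spectral arcs of a unitary of small trace
-/

set_option autoImplicit false
set_option linter.unusedSectionVars false

open scoped InnerProductSpace Topology
open Pool.Agent.H85.BC

namespace Pool.Agent.H7.BC

variable {H : Type} [NormedAddCommGroup H] [InnerProductSpace ℂ H] [CompleteSpace H]

/-- The norm of a self-adjoint operator is bounded by its quadratic form. -/
theorem norm_le_of_quad (T : H →L[ℂ] H) (hT : IsSelfAdjoint T) (c : ℝ) (hc : 0 ≤ c)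
    (h : ∀ ζ : H, |(inner ℂ ζ (T ζ) : ℂ).re| ≤ c * ‖ζ‖ ^ 2) : ‖T‖ ≤ c := by
  have hpol : ∀ x y : H, (inner ℂ x (T y) : ℂ).re ≤ c / 2 * (‖x‖ ^ 2 + ‖y‖ ^ 2) := by
    intro x y
    have h1 := (abs_le.1 (h (x + y))).2
    have h2 := (abs_le.1 (h (x - y))).1
    have e1 : (inner ℂ (x + y) (T (x + y)) : ℂ).re
        = (inner ℂ x (T x) : ℂ).re + (inner ℂ x (T y) : ℂ).re
          + (inner ℂ y (T x) : ℂ).re + (inner ℂ y (T y) : ℂ).re := by
      simp only [map_add, inner_add_left, inner_add_right, Complex.add_re]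
      ring
    have e2 : (inner ℂ (x - y) (T (x - y)) : ℂ).re
        = (inner ℂ x (T x) : ℂ).re - (inner ℂ x (T y) : ℂ).re
          - (inner ℂ y (T x) : ℂ).re + (inner ℂ y (T y) : ℂ).re := by
      simp only [map_sub, inner_sub_left, inner_sub_right, Complex.sub_re]
      ring
    have e3 : (inner ℂ y (T x) : ℂ).re = (inner ℂ x (T y) : ℂ).re := by
      have h3 : (inner ℂ y (T x) : ℂ) = (starRingEnd ℂ) (inner ℂ x (T y)) := by
        rw [← inner_star_left T y x, hT.star_eq, inner_conj_symm]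
      rw [h3, Complex.conj_re]
    have e4 : ‖x + y‖ ^ 2 + ‖x - y‖ ^ 2 = 2 * (‖x‖ ^ 2 + ‖y‖ ^ 2) := by
      have := parallelogram_law_with_norm ℂ x y
      nlinarith [this]
    rw [e1] at h1
    rw [e2] at h2
    rw [e3] at h1 h2
    nlinarith [h1, h2, e4]
  refine ContinuousLinearMap.opNorm_le_bound _ hc (fun y => ?_)
  by_cases hy : T y = 0
  · rw [hy, norm_zero]
    positivity
  · have hpos : 0 < ‖T y‖ := norm_pos_iff.2 hy
    have hy0 : y ≠ 0 := fun h0 => hy (by rw [h0, map_zero])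
    have hypos : 0 < ‖y‖ := norm_pos_iff.2 hy0
    have h1 := hpol (((‖y‖ / ‖T y‖ : ℝ) : ℂ) • T y) y
    have h2 : ‖((‖y‖ / ‖T y‖ : ℝ) : ℂ) • T y‖ = ‖y‖ := by
      rw [norm_smul, Complex.norm_real, Real.norm_eq_abs, abs_of_nonneg (by positivity)]
      field_simp
    have h3 : (inner ℂ (((‖y‖ / ‖T y‖ : ℝ) : ℂ) • T y) (T y) : ℂ).re = ‖y‖ * ‖T y‖ := by
      rw [inner_smul_left, Complex.conj_ofReal, Complex.re_ofReal_mul,
        inner_self_eq_norm_sq_to_K]
      have : (((‖T y‖ : ℝ) : ℂ) ^ 2).re = ‖T y‖ ^ 2 := by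
        rw [← Complex.ofReal_pow, Complex.ofReal_re]
      have h4 : ((algebraMap ℝ ℂ) ‖T y‖ ^ 2 : ℂ).re = ‖T y‖ ^ 2 := this
      rw [h4]
      field_simp
    rw [h2, h3] at h1
    have h5 : ‖y‖ * ‖T y‖ ≤ ‖y‖ * (c * ‖y‖) := by nlinarith
    exact le_of_mul_le_mul_left h5 hypos

/-- `‖ζ‖² = Re⟨ζ, ζ⟩`. -/
theorem re_inner_self' (ζ : H) : (inner ℂ ζ ζ : ℂ).re = ‖ζ‖ ^ 2 := by
  rw [inner_self_eq_norm_sq_to_K]
  have : (((‖ζ‖ : ℝ) : ℂ) ^ 2).re = ‖ζ‖ ^ 2 := by
    rw [← Complex.ofReal_pow, Complex.ofReal_re]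
  exact this

/-- A grid of spectral projections of a self-adjoint contraction. -/
theorem grid (hSP : T_SP H) (N : VonNeumannAlgebra H) (a : H →L[ℂ] H) (ha : a ∈ N)
    (hsa : IsSelfAdjoint a) (hn : ‖a‖ ≤ 1) :
    ∃ (G : ℕ → (H →L[ℂ] H)) (s : ℕ → ℝ),
      (∀ i, G i ∈ N ∧ IsStarProjection (G i) ∧
        ∀ b : H →L[ℂ] H, b * a = a * b → b * G i = G i * b) ∧
      (∀ i j, i ≠ j → G i * G j = 0) ∧ (∑ i ∈ Finset.range 802, G i = 1) ∧
      ∀ i, ‖(a - ((s i : ℝ) : ℂ) • (1 : H →L[ℂ] H)) * G i‖ ≤ 1 / 400 := by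
  set t : ℕ → ℝ := fun j => -1 - 1 / 400 + (j : ℝ) / 400 with ht
  choose E hEN hEp hEc hElo hEhi using fun j : ℕ => hSP N a ha hsa (t j)
  have hquad : ∀ ζ : H, |(inner ℂ ζ (a ζ) : ℂ).re| ≤ ‖ζ‖ ^ 2 := by
    intro ζ
    calc |(inner ℂ ζ (a ζ) : ℂ).re| ≤ ‖(inner ℂ ζ (a ζ) : ℂ)‖ := Complex.abs_re_le_norm _
      _ ≤ ‖ζ‖ * ‖a ζ‖ := norm_inner_le_norm _ _
      _ ≤ ‖ζ‖ * (1 * ‖ζ‖) := by
          apply mul_le_mul_of_nonneg_left _ (norm_nonneg _)
          exact (a.le_opNorm ζ).trans (mul_le_mul_of_nonneg_right hn (norm_nonneg _))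
      _ = ‖ζ‖ ^ 2 := by ring
  have hEa : ∀ j, a * E j = E j * a := fun j => hEc j a rfl
  have hEE : ∀ i j, E i * E j = E j * E i := fun i j => hEc j (E i) (hEa i).symm
  have hid : ∀ j, E j * E j = E j := fun j => (hEp j).isIdempotentElem.eq
  -- nested
  have hnest : ∀ j, E j * E (j + 1) = E (j + 1) := by
    intro j
    ext η
    have h1 : E (j + 1) (E (j + 1) η - E j (E (j + 1) η)) = E (j + 1) η - E j (E (j + 1) η) := by
      have e1 : E (j + 1) (E (j + 1) η) = E (j + 1) η := by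
        rw [← mul_app, hid]
      have e2 : E (j + 1) (E j (E (j + 1) η)) = E j (E (j + 1) η) := by
        rw [← mul_app, hEE (j + 1) j, mul_app, e1]
      rw [map_sub, e1, e2]
    have h2 : E j (E (j + 1) η - E j (E (j + 1) η)) = 0 := by
      have e1 : E j (E j (E (j + 1) η)) = E j (E (j + 1) η) := by
        rw [← mul_app, hid]
      rw [map_sub, e1, sub_self]
    have h3 := hElo (j + 1) _ h1
    have h4 := hEhi j _ h2
    have h5 : t (j + 1) = t j + 1 / 400 := by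
      simp only [ht]
      push_cast
      ring
    rw [h5] at h3
    have h6 : ‖E (j + 1) η - E j (E (j + 1) η)‖ ^ 2 ≤ 0 := by nlinarith
    have h7 : ‖E (j + 1) η - E j (E (j + 1) η)‖ = 0 := by
      have := sq_nonneg ‖E (j + 1) η - E j (E (j + 1) η)‖
      exact pow_eq_zero_iff two_ne_zero |>.1 (le_antisymm h6 this)
    have h8 := sub_eq_zero.1 (norm_eq_zero.1 h7)
    rw [mul_app]
    exact h8.symm
  have hle : ∀ i j, i ≤ j → E i * E j = E j := by
    intro i j hij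
    induction hij with
    | refl => exact hid i
    | step hij ih =>
      rename_i m
      rw [← hnest m, ← mul_assoc, ih]
  have hle' : ∀ i j, i ≤ j → E j * E i = E j := fun i j hij => by rw [hEE, hle i j hij]
  have hE0 : E 0 = 1 := by
    ext η
    have h1 : E 0 (η - E 0 η) = 0 := by
      have e1 : E 0 (E 0 η) = E 0 η := by rw [← mul_app, hid]
      rw [map_sub, e1, sub_self]
    have h2 := hEhi 0 _ h1
    have h3 := (abs_le.1 (hquad (η - E 0 η))).1
    have h4 : t 0 = -1 - 1 / 400 := by simp [ht]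
    rw [h4] at h2
    have h6 : ‖η - E 0 η‖ ^ 2 ≤ 0 := by nlinarith
    have h7 : ‖η - E 0 η‖ = 0 :=
      pow_eq_zero_iff two_ne_zero |>.1 (le_antisymm h6 (sq_nonneg _))
    have h8 := sub_eq_zero.1 (norm_eq_zero.1 h7)
    exact h8.symm
  have hEn : E 802 = 0 := by
    ext η
    have h1 : E 802 (E 802 η) = E 802 η := by rw [← mul_app, hid]
    have h2 := hElo 802 _ h1
    have h3 := (abs_le.1 (hquad (E 802 η))).2
    have h4 : t 802 = 1 + 1 / 400 := by simp only [ht]; norm_num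
    rw [h4] at h2
    have h6 : ‖E 802 η‖ ^ 2 ≤ 0 := by nlinarith
    have h7 : ‖E 802 η‖ = 0 :=
      pow_eq_zero_iff two_ne_zero |>.1 (le_antisymm h6 (sq_nonneg _))
    exact norm_eq_zero.1 h7
  have hGp : ∀ j, IsStarProjection (E j - E (j + 1)) := fun j =>
    proj_sub (hEp (j + 1)) (hEp j) (hnest j)
  have horth : ∀ i j, i < j → (E i - E (i + 1)) * (E j - E (j + 1)) = 0 := by
    intro i j hij
    rw [sub_mul, mul_sub, mul_sub, hle i j hij.le, hle i (j + 1) (by omega),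
      hle (i + 1) j hij, hle (i + 1) (j + 1) (by omega)]
    simp
  refine ⟨fun j => E j - E (j + 1), t, ?_, ?_, ?_, ?_⟩
  · intro j
    refine ⟨sub_mem (hEN j) (hEN (j + 1)), hGp j, fun b hb => ?_⟩
    rw [mul_sub, sub_mul, hEc j b hb, hEc (j + 1) b hb]
  · intro i j hij
    rcases lt_or_gt_of_ne hij with h | h
    · exact horth i j h
    · have h1 := congrArg star (horth j i h)
      rw [star_mul, (hGp i).isSelfAdjoint.star_eq, (hGp j).isSelfAdjoint.star_eq,
        star_zero] at h1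
      exact h1
  · rw [Finset.sum_range_sub', hE0, hEn, sub_zero]
  · intro j
    show ‖(a - ((t j : ℝ) : ℂ) • (1 : H →L[ℂ] H)) * (E j - E (j + 1))‖ ≤ 1 / 400
    have hGp' := hGp j
    have hGa : a * (E j - E (j + 1)) = (E j - E (j + 1)) * a := by
      rw [mul_sub, sub_mul, hEa, hEa]
    have hEG : E j * (E j - E (j + 1)) = E j - E (j + 1) := by
      rw [mul_sub, hid, hnest]
    have hEG' : E (j + 1) * (E j - E (j + 1)) = 0 := by
      rw [mul_sub, hid, hle' j (j + 1) (by omega), sub_self]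
    generalize hG : E j - E (j + 1) = G at hGp' hGa hEG hEG' ⊢
    have hGG : G * G = G := hGp'.isIdempotentElem.eq
    have hGs : star G = G := hGp'.isSelfAdjoint.star_eq
    have e0 : (a - ((t j : ℝ) : ℂ) • (1 : H →L[ℂ] H)) * G = a * G - ((t j : ℝ) : ℂ) • G := by
      rw [sub_mul, smul_mul_assoc, one_mul]
    rw [e0]
    apply norm_le_of_quad _ _ _ (by norm_num)
    · intro ζ
      have e1 : (inner ℂ ζ ((a * G - ((t j : ℝ) : ℂ) • G) ζ) : ℂ)
          = inner ℂ (G ζ) (a (G ζ)) - ((t j : ℝ) : ℂ) * inner ℂ (G ζ) (G ζ) := by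
        have e2 : a * G - ((t j : ℝ) : ℂ) • G
            = star G * (a * G - ((t j : ℝ) : ℂ) • G) := by
          rw [hGs, mul_sub, ← mul_assoc G a G, ← hGa, mul_assoc a G G, hGG,
            mul_smul_comm, hGG]
        rw [e2, mul_app, inner_star_right]
        show (inner ℂ (G ζ) (a (G ζ) - ((t j : ℝ) : ℂ) • G ζ) : ℂ) = _
        rw [inner_sub_right, inner_smul_right]
      have h1 : E j (G ζ) = G ζ := by
        rw [← mul_app, hEG]
      have h2 : E (j + 1) (G ζ) = 0 := by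
        rw [← mul_app, hEG']
        rfl
      have h3 := hElo j (G ζ) h1
      have h4 := hEhi (j + 1) (G ζ) h2
      have h5 : t (j + 1) = t j + 1 / 400 := by
        simp only [ht]
        push_cast
        ring
      rw [h5] at h4
      have h6 : ‖G ζ‖ ≤ ‖ζ‖ := proj_apply_norm_le hGp' ζ
      have h7 : ‖G ζ‖ ^ 2 ≤ ‖ζ‖ ^ 2 := pow_le_pow_left₀ (norm_nonneg _) h6 2
      rw [e1, Complex.sub_re, Complex.re_ofReal_mul, re_inner_self', abs_le]
      constructor
      · nlinarith [sq_nonneg ‖ζ‖]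
      · nlinarith
    · show star _ = _
      rw [star_sub, star_mul, hsa.star_eq, star_smul, hGs, hGa]
      simp only [Complex.star_def, Complex.conj_ofReal]

/-- The spectral cells of a unitary. -/
theorem cells (hSP : T_SP H) (N : VonNeumannAlgebra H) (u : H →L[ℂ] H) (hu : u ∈ N)
    (h1 : star u * u = 1) (h2 : u * star u = 1) :
    ∃ (C : ℕ × ℕ → (H →L[ℂ] H)) (l : ℕ × ℕ → ℂ),
      (∀ i, C i ∈ N ∧ IsStarProjection (C i) ∧ u * C i = C i * u) ∧
      (∀ i j, i ≠ j → C i * C j = 0) ∧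
      (∑ i ∈ Finset.range 802 ×ˢ Finset.range 802, C i = 1) ∧
      ∀ i, ‖l i‖ = 1 ∧ ‖(u - l i • (1 : H →L[ℂ] H)) * C i‖ ≤ 1 / 100 := by
  have husa : star u ∈ N := star_mem' N hu
  have hcomm : u * star u = star u * u := by rw [h1, h2]
  have hnu : ‖u‖ ≤ 1 := by
    refine ContinuousLinearMap.opNorm_le_bound _ zero_le_one (fun η => ?_)
    have e : ‖u η‖ ^ 2 = ‖η‖ ^ 2 := by
      rw [← re_inner_self', ← re_inner_self', ← inner_star_right, ← mul_app, h1]
      rfl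
    have := (pow_left_inj₀ (norm_nonneg _) (norm_nonneg _) two_ne_zero).1 e
    rw [this, one_mul]
  have hiso : ∀ η : H, ‖u η‖ = ‖η‖ := by
    intro η
    have e : ‖u η‖ ^ 2 = ‖η‖ ^ 2 := by
      rw [← re_inner_self', ← re_inner_self', ← inner_star_right, ← mul_app, h1]
      rfl
    exact (pow_left_inj₀ (norm_nonneg _) (norm_nonneg _) two_ne_zero).1 e
  have hnsu : ‖star u‖ ≤ 1 := by rw [norm_star]; exact hnu
  obtain ⟨h, hh⟩ : ∃ h : H →L[ℂ] H, h = (1 / 2 : ℂ) • (u + star u) := ⟨_, rfl⟩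
  obtain ⟨k, hk⟩ : ∃ k : H →L[ℂ] H, k = (-Complex.I / 2 : ℂ) • (u - star u) := ⟨_, rfl⟩
  have hhN : h ∈ N := by rw [hh]; exact smul_mem' N _ (add_mem hu husa)
  have hkN : k ∈ N := by rw [hk]; exact smul_mem' N _ (sub_mem hu husa)
  have hhs : IsSelfAdjoint h := by
    show star h = h
    rw [hh, star_smul, star_add, star_star, add_comm]
    congr 1
    simp
  have hks : IsSelfAdjoint k := by
    show star k = k
    rw [hk, star_smul, star_sub, star_star, ← neg_sub u (star u), smul_neg, ← neg_smul]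
    congr 1
    simp [Complex.conj_I]
    ring
  have hhn : ‖h‖ ≤ 1 := by
    rw [hh, norm_smul]
    have := norm_add_le u (star u)
    have e : ‖(1 / 2 : ℂ)‖ = 1 / 2 := by norm_num
    rw [e]
    linarith
  have hkn : ‖k‖ ≤ 1 := by
    rw [hk, norm_smul]
    have := norm_sub_le u (star u)
    have e : ‖(-Complex.I / 2 : ℂ)‖ = 1 / 2 := by simp
    rw [e]
    linarith
  have huhk : u = h + Complex.I • k := by
    rw [hh, hk, smul_smul]
    have e : Complex.I * (-Complex.I / 2) = 1 / 2 := by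
      have := Complex.I_mul_I
      linear_combination (-1 / 2 : ℂ) * this
    rw [e, ← smul_add]
    have e2 : u + star u + (u - star u) = (2 : ℂ) • u := by
      rw [two_smul]
      abel
    rw [e2, smul_smul]
    norm_num
  have huh : u * h = h * u := by
    rw [hh, mul_smul_comm, smul_mul_assoc, mul_add, add_mul, hcomm]
  have huk : u * k = k * u := by
    rw [hk, mul_smul_comm, smul_mul_assoc, mul_sub, sub_mul, hcomm]
  have hhk : h * k = k * h := by
    have hsh : star u * h = h * star u := by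
      rw [hh, mul_smul_comm, smul_mul_assoc, mul_add, add_mul, hcomm]
    rw [hk, mul_smul_comm, smul_mul_assoc, mul_sub, sub_mul, huh, hsh]
  obtain ⟨G, s, hG, hGo, hGs, hGn⟩ := grid hSP N h hhN hhs hhn
  obtain ⟨K, t, hK, hKo, hKs, hKn⟩ := grid hSP N k hkN hks hkn
  have hGk : ∀ i, k * G i = G i * k := fun i => (hG i).2.2 k hhk.symm
  have hKG : ∀ i j, G i * K j = K j * G i := fun i j => (hK j).2.2 (G i) (hGk i).symm
  have huG : ∀ i, u * G i = G i * u := fun i => (hG i).2.2 u huh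
  have huK : ∀ i, u * K i = K i * u := fun i => (hK i).2.2 u huk
  have hGi : ∀ i, G i * G i = G i := fun i => (hG i).2.1.isIdempotentElem.eq
  have hKi : ∀ i, K i * K i = K i := fun i => (hK i).2.1.isIdempotentElem.eq
  have hCp : ∀ i : ℕ × ℕ, IsStarProjection (G i.1 * K i.2) := by
    intro i
    refine ⟨?_, ?_⟩
    · show G i.1 * K i.2 * (G i.1 * K i.2) = G i.1 * K i.2
      calc G i.1 * K i.2 * (G i.1 * K i.2) = G i.1 * (K i.2 * G i.1) * K i.2 := by
            simp only [mul_assoc]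
        _ = G i.1 * (G i.1 * K i.2) * K i.2 := by rw [hKG]
        _ = (G i.1 * G i.1) * (K i.2 * K i.2) := by simp only [mul_assoc]
        _ = G i.1 * K i.2 := by rw [hGi, hKi]
    · show star (G i.1 * K i.2) = G i.1 * K i.2
      rw [star_mul, (hG i.1).2.1.isSelfAdjoint.star_eq, (hK i.2).2.1.isSelfAdjoint.star_eq,
        hKG]
  have hCn : ∀ i : ℕ × ℕ,
      ‖(u - ((s i.1 : ℂ) + Complex.I * (t i.2 : ℂ)) • (1 : H →L[ℂ] H)) * (G i.1 * K i.2)‖
        ≤ 1 / 200 := by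
    intro i
    have e : (u - ((s i.1 : ℂ) + Complex.I * (t i.2 : ℂ)) • (1 : H →L[ℂ] H)) * (G i.1 * K i.2)
        = ((h - ((s i.1 : ℝ) : ℂ) • (1 : H →L[ℂ] H)) * G i.1) * K i.2
          + Complex.I • (((k - ((t i.2 : ℝ) : ℂ) • (1 : H →L[ℂ] H)) * K i.2) * G i.1) := by
      have e1 : u - ((s i.1 : ℂ) + Complex.I * (t i.2 : ℂ)) • (1 : H →L[ℂ] H)
          = (h - ((s i.1 : ℝ) : ℂ) • (1 : H →L[ℂ] H))
            + Complex.I • (k - ((t i.2 : ℝ) : ℂ) • (1 : H →L[ℂ] H)) := by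
        rw [huhk, smul_sub, smul_smul, add_smul]
        abel
      rw [e1, add_mul, smul_mul_assoc, mul_assoc _ (G i.1) (K i.2),
        mul_assoc _ (K i.2) (G i.1), ← hKG]
    rw [e]
    refine (norm_add_le _ _).trans ?_
    rw [norm_smul, Complex.norm_I, one_mul]
    have b1 : ‖((h - ((s i.1 : ℝ) : ℂ) • (1 : H →L[ℂ] H)) * G i.1) * K i.2‖ ≤ 1 / 400 := by
      refine (norm_mul_le _ _).trans ?_
      calc _ ≤ (1 / 400 : ℝ) * 1 := mul_le_mul (hGn i.1) (proj_norm_le_one (hK i.2).2.1)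
            (norm_nonneg _) (by norm_num)
        _ = _ := by norm_num
    have b2 : ‖((k - ((t i.2 : ℝ) : ℂ) • (1 : H →L[ℂ] H)) * K i.2) * G i.1‖ ≤ 1 / 400 := by
      refine (norm_mul_le _ _).trans ?_
      calc _ ≤ (1 / 400 : ℝ) * 1 := mul_le_mul (hKn i.2) (proj_norm_le_one (hG i.1).2.1)
            (norm_nonneg _) (by norm_num)
        _ = _ := by norm_num
    linarith
  -- move the centre of a cell to the unit circle
  have hcirc : ∀ i : ℕ × ℕ, ∃ l : ℂ, ‖l‖ = 1 ∧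
      ‖(u - l • (1 : H →L[ℂ] H)) * (G i.1 * K i.2)‖ ≤ 1 / 100 := by
    intro i
    have hC := hCn i
    have hP := hCp i
    generalize G i.1 * K i.2 = C at hC hP ⊢
    generalize ((s i.1 : ℂ) + Complex.I * (t i.2 : ℂ)) = μ at hC
    by_cases hC0 : C = 0
    · refine ⟨1, norm_one, ?_⟩
      rw [hC0, mul_zero, norm_zero]
      norm_num
    · obtain ⟨ζ, hζ⟩ : ∃ ζ, C ζ ≠ 0 := by
        by_contra hcon
        push Not at hcon
        exact hC0 (by ext ζ; rw [hcon ζ]; rfl)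
      have hpos : 0 < ‖C ζ‖ := norm_pos_iff.2 hζ
      have hCC : C (C ζ) = C ζ := by rw [← mul_app, hP.isIdempotentElem.eq]
      have b1 : ‖u (C ζ) - μ • C ζ‖ ≤ 1 / 200 * ‖C ζ‖ := by
        have b2 := ((u - μ • (1 : H →L[ℂ] H)) * C).le_opNorm (C ζ)
        have b3 : ((u - μ • (1 : H →L[ℂ] H)) * C) (C ζ) = u (C ζ) - μ • C ζ := by
          rw [mul_app, hCC]
          rfl
        rw [b3] at b2
        exact b2.trans (mul_le_mul_of_nonneg_right hC (norm_nonneg _))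
      have b4 : |‖μ‖ - 1| ≤ 1 / 200 := by
        have b5 := abs_norm_sub_norm_le (u (C ζ)) (μ • C ζ)
        rw [hiso, norm_smul] at b5
        have b6 : |‖C ζ‖ - ‖μ‖ * ‖C ζ‖| = |‖μ‖ - 1| * ‖C ζ‖ := by
          rw [show ‖C ζ‖ - ‖μ‖ * ‖C ζ‖ = -((‖μ‖ - 1) * ‖C ζ‖) by ring, abs_neg, abs_mul,
            abs_of_pos hpos]
        rw [b6] at b5
        exact le_of_mul_le_mul_right (b5.trans b1) hpos
      have hμ : 0 < ‖μ‖ := by
        have := (abs_le.1 b4).1
        linarith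
      refine ⟨((‖μ‖⁻¹ : ℝ) : ℂ) * μ, ?_, ?_⟩
      · rw [norm_mul, Complex.norm_real, Real.norm_eq_abs, abs_of_pos (inv_pos.2 hμ)]
        exact inv_mul_cancel₀ hμ.ne'
      · have e : (u - (((‖μ‖⁻¹ : ℝ) : ℂ) * μ) • (1 : H →L[ℂ] H)) * C
            = (u - μ • (1 : H →L[ℂ] H)) * C + (μ - ((‖μ‖⁻¹ : ℝ) : ℂ) * μ) • C := by
          rw [sub_mul, sub_mul, smul_mul_assoc, smul_mul_assoc, one_mul, sub_smul]
          abel
        rw [e]
        refine (norm_add_le _ _).trans ?_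
        rw [norm_smul]
        have e2 : ‖μ - ((‖μ‖⁻¹ : ℝ) : ℂ) * μ‖ = |‖μ‖ - 1| := by
          have e3 : μ - ((‖μ‖⁻¹ : ℝ) : ℂ) * μ = ((1 - ‖μ‖⁻¹ : ℝ) : ℂ) * μ := by
            push_cast
            ring
          have e4 : |‖μ‖ - 1| = |(1 - ‖μ‖⁻¹) * ‖μ‖| := by
            rw [sub_mul, inv_mul_cancel₀ hμ.ne', one_mul]
          rw [e3, norm_mul, Complex.norm_real, Real.norm_eq_abs, e4, abs_mul,
            abs_of_pos hμ]
        rw [e2]
        have b7 : |‖μ‖ - 1| * ‖C‖ ≤ 1 / 200 * 1 :=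
          mul_le_mul b4 (proj_norm_le_one hP) (norm_nonneg _) (by norm_num)
        linarith
  choose l hl1 hl2 using hcirc
  refine ⟨fun i => G i.1 * K i.2, l, ?_, ?_, ?_, fun i => ⟨hl1 i, hl2 i⟩⟩
  · intro i
    refine ⟨mul_mem (hG i.1).1 (hK i.2).1, hCp i, ?_⟩
    show u * (G i.1 * K i.2) = G i.1 * K i.2 * u
    rw [← mul_assoc, huG, mul_assoc, huK, mul_assoc]
  · intro i j hij
    show G i.1 * K i.2 * (G j.1 * K j.2) = 0
    have e : G i.1 * K i.2 * (G j.1 * K j.2) = (G i.1 * G j.1) * (K i.2 * K j.2) := by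
      calc G i.1 * K i.2 * (G j.1 * K j.2) = G i.1 * (K i.2 * G j.1) * K j.2 := by
            simp only [mul_assoc]
        _ = G i.1 * (G j.1 * K i.2) * K j.2 := by rw [hKG]
        _ = _ := by simp only [mul_assoc]
    rw [e]
    by_cases h1 : i.1 = j.1
    · have h2 : i.2 ≠ j.2 := fun h2 => hij (Prod.ext h1 h2)
      rw [hKo _ _ h2, mul_zero]
    · rw [hGo _ _ h1, zero_mul]
  · show ∑ i ∈ Finset.range 802 ×ˢ Finset.range 802, G i.1 * K i.2 = 1
    rw [Finset.sum_product]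
    simp only
    rw [← Finset.sum_mul_sum, hGs, hKs, one_mul]

/-- Row ARC. -/
theorem pf_ARC (hSP : T_SP H) : T_ARC H := by
  obtain ⟨S, hS⟩ : ∃ S : Finset (ℕ × ℕ), S = Finset.range 802 ×ˢ Finset.range 802 := ⟨_, rfl⟩
  obtain ⟨L, hL⟩ : ∃ L : ℝ, L = (S.card : ℝ) := ⟨_, rfl⟩
  have hSne : S.Nonempty := ⟨(0, 0), by rw [hS]; simp⟩
  have hL1 : 1 ≤ L := by
    rw [hL]
    exact_mod_cast hSne.card_pos
  obtain ⟨κ, hκ⟩ : ∃ κ : ℝ, κ = 1 / (100 * L) := ⟨_, rfl⟩
  have hκpos : 0 < κ := by rw [hκ]; positivity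
  have hκL : L * κ = 1 / 100 := by rw [hκ]; field_simp
  refine ⟨κ, hκpos, ?_⟩
  intro N ξ hξ u hu h1 h2 htr
  obtain ⟨C, l, hC, hCo, hCs, hCl⟩ := cells hSP N u hu h1 h2
  rw [← hS] at hCs
  have hw0 : ∀ i, 0 ≤ ‖C i ξ‖ ^ 2 := fun i => sq_nonneg _
  have hw1 : ∑ i ∈ S, ‖C i ξ‖ ^ 2 = 1 := by
    have e := congrArg (tr ξ) hCs
    rw [tr_sum, hξ.tr_one] at e
    have e2 : ∀ i ∈ S, tr ξ (C i) = ((‖C i ξ‖ ^ 2 : ℝ) : ℂ) := fun i _ =>
      tr_proj ξ (hC i).2.1
    rw [Finset.sum_congr rfl e2, ← Complex.ofReal_sum] at e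
    exact_mod_cast e
  -- a heavy cell
  obtain ⟨i, hi, hiw⟩ : ∃ i ∈ S, κ ≤ ‖C i ξ‖ ^ 2 := by
    by_contra hcon
    push Not at hcon
    have e : ∑ i ∈ S, ‖C i ξ‖ ^ 2 ≤ ∑ _i ∈ S, κ := Finset.sum_le_sum (fun i hi => (hcon i hi).le)
    rw [hw1, Finset.sum_const, nsmul_eq_mul, ← hL, hκL] at e
    norm_num at e
  -- a second heavy cell, far away
  obtain ⟨j, hj, hjw, hij⟩ : ∃ j ∈ S, κ ≤ ‖C j ξ‖ ^ 2 ∧ ‖l i + l j‖ ≤ 3 / 2 := by
    by_contra hcon
    push Not at hcon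
    have hre : ∀ j ∈ S, κ ≤ ‖C j ξ‖ ^ 2 → 1 / 8 ≤ ((starRingEnd ℂ) (l i) * l j).re := by
      intro j hj hjw
      have b1 := hcon j hj hjw
      have b2 : ‖l i + l j‖ ^ 2 = ‖l i‖ ^ 2 + ‖l j‖ ^ 2
          + 2 * ((starRingEnd ℂ) (l i) * l j).re := by
        rw [← Complex.normSq_eq_norm_sq, ← Complex.normSq_eq_norm_sq,
          ← Complex.normSq_eq_norm_sq, Complex.normSq_add]
        have : (l i * (starRingEnd ℂ) (l j)).re = ((starRingEnd ℂ) (l i) * l j).re := by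
          simp [Complex.mul_re]
        rw [this]
      rw [(hCl i).1, (hCl j).1] at b2
      nlinarith [norm_nonneg (l i + l j)]
    have hcell : ∀ j ∈ S, 23 / 200 * ‖C j ξ‖ ^ 2 - 9 / 8 * κ
        ≤ ((starRingEnd ℂ) (l i) * tr ξ (u * C j)).re := by
      intro j hj
      have hp := (hC j).2.1
      have hCC : C j * C j = C j := hp.isIdempotentElem.eq
      have e1 : u * C j = l j • C j + C j * ((u - l j • (1 : H →L[ℂ] H)) * C j) := by
        rw [sub_mul, smul_mul_assoc, one_mul, mul_sub, ← mul_assoc, ← (hC j).2.2, mul_assoc,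
          hCC, mul_smul_comm, hCC]
        abel
      have e2 : ‖tr ξ (C j * ((u - l j • (1 : H →L[ℂ] H)) * C j))‖ ≤ 1 / 100 * ‖C j ξ‖ ^ 2 := by
        have b1 := norm_tr_star_mul_le ξ (C j) ((u - l j • (1 : H →L[ℂ] H)) * C j)
        rw [hp.isSelfAdjoint.star_eq] at b1
        have b2 : ‖((u - l j • (1 : H →L[ℂ] H)) * C j) ξ‖ ≤ 1 / 100 * ‖C j ξ‖ := by
          have b3 := ((u - l j • (1 : H →L[ℂ] H)) * C j).le_opNorm (C j ξ)
          have b4 : ((u - l j • (1 : H →L[ℂ] H)) * C j) (C j ξ)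
              = ((u - l j • (1 : H →L[ℂ] H)) * C j) ξ := by
            rw [← mul_app, mul_assoc, hCC]
          rw [b4] at b3
          exact b3.trans (mul_le_mul_of_nonneg_right (hCl j).2 (norm_nonneg _))
        calc _ ≤ ‖C j ξ‖ * ‖((u - l j • (1 : H →L[ℂ] H)) * C j) ξ‖ := b1
          _ ≤ ‖C j ξ‖ * (1 / 100 * ‖C j ξ‖) := mul_le_mul_of_nonneg_left b2 (norm_nonneg _)
          _ = _ := by ring
      have e3 : ((starRingEnd ℂ) (l i) * tr ξ (u * C j)).re
          = ((starRingEnd ℂ) (l i) * l j).re * ‖C j ξ‖ ^ 2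
            + ((starRingEnd ℂ) (l i)
              * tr ξ (C j * ((u - l j • (1 : H →L[ℂ] H)) * C j))).re := by
        rw [e1, tr_add, tr_smul, tr_proj ξ hp, mul_add, Complex.add_re, ← mul_assoc,
          Complex.re_mul_ofReal]
      have e4 : -(1 / 100 * ‖C j ξ‖ ^ 2) ≤ ((starRingEnd ℂ) (l i)
              * tr ξ (C j * ((u - l j • (1 : H →L[ℂ] H)) * C j))).re := by
        have b1 := Complex.abs_re_le_norm ((starRingEnd ℂ) (l i)
              * tr ξ (C j * ((u - l j • (1 : H →L[ℂ] H)) * C j)))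
        rw [norm_mul, RCLike.norm_conj, (hCl i).1, one_mul] at b1
        have b2 := (abs_le.1 (b1.trans e2)).1
        exact b2
      rw [e3]
      by_cases hjw : κ ≤ ‖C j ξ‖ ^ 2
      · have := hre j hj hjw
        nlinarith [hw0 j]
      · push Not at hjw
        have b1 := Complex.abs_re_le_norm ((starRingEnd ℂ) (l i) * l j)
        rw [norm_mul, RCLike.norm_conj, (hCl i).1, (hCl j).1, one_mul] at b1
        have b2 := (abs_le.1 b1).1
        nlinarith [hw0 j]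
    have hsum : ((starRingEnd ℂ) (l i) * tr ξ u).re
        = ∑ j ∈ S, ((starRingEnd ℂ) (l i) * tr ξ (u * C j)).re := by
      rw [← Complex.re_sum, ← Finset.mul_sum, ← tr_sum, ← Finset.mul_sum, hCs, mul_one]
    have hge : 23 / 200 - 9 / 8 * (1 / 100) ≤ ((starRingEnd ℂ) (l i) * tr ξ u).re := by
      rw [hsum]
      have := Finset.sum_le_sum hcell
      rw [Finset.sum_sub_distrib, ← Finset.mul_sum, hw1, Finset.sum_const, nsmul_eq_mul,
        ← hL] at this
      nlinarith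
    have hle : ((starRingEnd ℂ) (l i) * tr ξ u).re ≤ κ := by
      have b1 := Complex.abs_re_le_norm ((starRingEnd ℂ) (l i) * tr ξ u)
      rw [norm_mul, RCLike.norm_conj, (hCl i).1, one_mul] at b1
      exact (le_abs_self _).trans (b1.trans htr)
    have hκ1 : κ ≤ 1 / 100 := by
      rw [← hκL]
      nlinarith
    linarith
  have hne : i ≠ j := by
    rintro rfl
    rw [← two_mul, norm_mul, (hCl i).1] at hij
    norm_num at hij
  exact ⟨l i, l j, (hCl i).1, (hCl j).1, hij, C i, (hC i).1, C j, (hC j).1, (hC i).2.1,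
    (hC j).2.1, hCo i j hne, hiw, hjw, (hCl i).2, (hCl j).2⟩

end Pool.Agent.H7.BC
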